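import Pool.Agent.H91.D2.Tlc4
import Pool.Agent.H31.W1.H80.GEN.Chn

/-!
# The entropy fields of `TL`: one law, with the letters of the family

`TlI`: the closed frame, the closed charts and the records. `tl_law`: the fields `fr` and `full` from
the free velocities, the fullness of the coordinates, and the few bits of the positions given the
records.
-/

set_option autoImplicit false

namespace Pool.W.LA91

open Pool.LA91

open Finset Real MvPolynomial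
open Pool.Agent.H49.Ent Pool.Agent.H32.Dense Pool.STK Pool.KA Pool.KSAT Pool.K2S Pool.PB Pool.GEN
open Pool.S6C Pool.RCD Pool.D2R Pool.CHT Pool.D2G30 Pool.V1E
open Pool.PB.Trl (rt rt_mem t_rt)

variable {m J : ℕ}

/-- **The letters**: a frame which is closed at the window `wb`, closed functions at the windows `W`
and `Wa`, the records. -/
structure TlI (F : Pool.KA.Fam m J) (A : F.Ω → Prop) (c : ℕ → Fin m) (d D e M : ℕ) (gx : ℕ → ℕ)
    (wb W Wa : ℕ) {V V' : Type} (v : F.Ω → V) (vL : Pool.GEN.LnT F → V) (v' : F.Ω → V')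
    (G₀ : Pool.GEN.PtT F → ℕ → MvPolynomial (Option (Fin m)) ℝ)
    (G₁ G₂ : Pool.GEN.PtT F → MvPolynomial (Option (Fin m)) ℝ)
    (H₀ : Pool.GEN.LnT F → ℕ → MvPolynomial (Option (Fin m)) ℝ)
    (H₁ H₂ : Pool.GEN.LnT F → MvPolynomial (Option (Fin m)) ℝ) : Prop where
  ch : Pool.W.GEN.ChOK F c d (fun _ => D) wb wb e gx A G₀ H₀
  cl0 : ∀ ω, A ω → ∀ l < d, G₀ (Pool.PB.ptr F J ω) l = H₀ (Pool.KSAT.slam F wb ω) l
  cl1 : ∀ ω, A ω → G₁ (Pool.PB.ptr F J ω) = H₁ (Pool.KSAT.slam F W ω)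
  cl2 : ∀ ω, A ω → G₂ (Pool.PB.ptr F J ω) = H₂ (Pool.KSAT.slam F Wa ω)
  vv : ∀ ω, A ω → v ω = vL (Pool.KSAT.slam F W ω)
  vZ : ∀ ω ω', A ω → A ω' → v ω = v ω' → F.Z ω = F.Z ω'


section law

variable {F : Pool.KA.Fam m J} {q : F.Ω → ℝ} {A : F.Ω → Prop} {c : ℕ → Fin m} {s : ℕ → ℕ}
  {d D e M wb W Wa Q k : ℕ} {gx : ℕ → ℕ} {qe : Fin d → ℕ} {V V' V₂ : Type} {v : F.Ω → V}
  {vL : Pool.GEN.LnT F → V} {v' : F.Ω → V'} {z2 : F.Ω → V₂}
  {G₀ : Pool.GEN.PtT F → ℕ → MvPolynomial (Option (Fin m)) ℝ}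
  {G₁ G₂ : Pool.GEN.PtT F → MvPolynomial (Option (Fin m)) ℝ}
  {H₀ : Pool.GEN.LnT F → ℕ → MvPolynomial (Option (Fin m)) ℝ}
  {H₁ H₂ : Pool.GEN.LnT F → MvPolynomial (Option (Fin m)) ℝ}


end law

end Pool.W.LA91
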