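import Pool.Agent.H91.D2.TlcA
import Pool.Agent.H31.W1.H91.D2.Tlc4

/-!
# The entropy fields of `TL` at ALL small scales

`TlAt`: the entropy fields of `TL` (`TlO`) hold at the scale `2 ^ (-k)` for all closed frames, charts
and records. `tl_all`: at almost every critical point of a closed set of good windows, `TlAt` holds
for all small scales.
-/

set_option autoImplicit false

namespace Pool.W.LA91

open Pool.LA91

open Finset Real MvPolynomial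
open Pool.Agent.H49.Ent Pool.Agent.H32.Dense Pool.STK Pool.KA Pool.KSAT Pool.K2S Pool.PB Pool.GEN
open Pool.S6C Pool.RCD Pool.D2R Pool.CHT Pool.D2G30 Pool.V1E
open Pool.PB.Trl (rt rt_mem t_rt)
open Pool.GRD (LbP)

variable {m : ℕ}


/-- **The entropy fields of `TL`** at the scale `2 ^ (-k)` near the window `g`. The numbers are
precise to `epT d σ κ 2 ^ (-k)`, the charts of the frame to the natural digits minus
`slT d σ κ 2 ^ (-k)`. -/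
def TlAt (S : Pool.PB.PCl m) (c : ℕ → Fin m) (d : ℕ) (sn : ℕ → ℝ → ℝ) (G : Set ℝ) (g : ℝ) (C : ℕ)
    (σ : ℚ) (κ : ℝ) (k : ℕ) : Prop :=
  ∀ (P₁ P₂ : Fin d → ℚ) (b w a o : ℝ),
      Pool.LA91.StG d sn g C σ k P₁ → Pool.LA91.StG d sn g C σ k P₂ → b ∈ G →
      g - C * (1 / 2) ^ k ≤ b → b + Pool.LA91.lagG C d k ≤ w → w ≤ a → a ≤ o →
      o + (1 / 2) ^ k ≤ g + Pool.LA91.lstG C d k →
      ∃ k₂ : ℝ, 0 < k₂ ∧ ∀ D : ℕ, ∃ C₁ : ℕ, Pool.S6C.Bas S (fun J F A =>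
        ∀ (s gx : ℕ → ℕ) (e M Q n : ℕ) (qe : Fin d → ℕ) (V V' : Type) (v : F.Ω → V)
          (vL : Pool.GEN.LnT F → V) (v' : F.Ω → V')
          (G₀ : Pool.GEN.PtT F → ℕ → MvPolynomial (Option (Fin m)) ℝ)
          (G₁ G₂ : Pool.GEN.PtT F → MvPolynomial (Option (Fin m)) ℝ)
          (H₀ : Pool.GEN.LnT F → ℕ → MvPolynomial (Option (Fin m)) ℝ)
          (H₁ H₂ : Pool.GEN.LnT F → MvPolynomial (Option (Fin m)) ℝ) (δ : ℝ),
        Pool.LA91.Mx (fun J F => Pool.PB.ptr F J) (Pool.RCD.vg w) k₂ F A v → Pool.LA91.Mx (fun J F => Pool.PB.ptr F J) (Pool.RCD.vg a) k₂ F A v' →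
        Pool.LA91.TlM J d C₁ (Pool.LA91.epT d σ κ * (1 / 2) ^ k * J) (fun i => sn i g - g) (fun i => (P₁ i : ℝ))
          (fun i => (P₂ i : ℝ)) w a o s gx e M Q n qe →
        (∀ i < d, (sn i b - Pool.LA91.slT d σ κ * (1 / 2) ^ k) * J ≤ gx i) →
        Pool.W.LA91.TlI F A c d D e M gx ⌊b * J⌋₊ ⌊w * J⌋₊ ⌊a * J⌋₊ v vL v' G₀ G₁ G₂ H₀ H₁ H₂ →
        Pool.LA91.TlS F A c s d ⌊w * J⌋₊ Q n qe G₀ δ →
        Pool.LA91.TlO F (Pool.Agent.H49.Ent.cond F.p A True) c s d ⌊b * J⌋₊ ⌊w * J⌋₊ Q n qe v vL v'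
          G₀ G₁ G₂ H₀ H₁ (κ * (1 / 2) ^ k * J))


end Pool.W.LA91
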